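import Pool.Agent.Lib.MP_ecee09_co.Main

set_option autoImplicit false

namespace Pool.Agent.Retired.MP_ecee09_co.NearSquare

/-- Every dense family of subsets of `[n]²` contains `A ⊊ B` whose difference is a product
`S × T` with `∅ ≠ S ⊆ T` and `T ∖ S` as small as we please compared with `S`:
`|S| ≥ F(|T ∖ S|)` for a function `F` given in advance. -/
theorem result (δ : ℝ) (hδ : 0 < δ) (F : ℕ → ℕ) :
    ∃ n₀ : ℕ, ∀ n ≥ n₀, ∀ 𝓕 : Finset (Finset (Fin n × Fin n)),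
      δ * 2 ^ (n ^ 2) ≤ 𝓕.card →
      ∃ A ∈ 𝓕, ∃ B ∈ 𝓕, ∃ S T : Finset (Fin n), S.Nonempty ∧ S ⊆ T ∧
        F (T \ S).card ≤ S.card ∧ Disjoint A (S ×ˢ T) ∧ B = A ∪ S ×ˢ T :=
  Pool.Agent.Lib.MP_ecee09_co.near_square δ hδ F

end Pool.Agent.Retired.MP_ecee09_co.NearSquare
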