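import Pool.Agent.Lib.MP_ecee09_co.Third

set_option autoImplicit false

namespace Pool.Agent.Retired.MP_ecee09_co.SquareAboveThird

/-- The square difference conjecture for families of density above one third: such a family of
subsets of `[n]²` contains `A ⊊ B` with `B ∖ A = S²`. -/
theorem result (δ : ℝ) (hδ : 1 / 3 < δ) :
    ∃ n₀ : ℕ, ∀ n ≥ n₀, ∀ 𝓕 : Finset (Finset (Fin n × Fin n)),
      δ * 2 ^ (n ^ 2) ≤ 𝓕.card →
      ∃ A ∈ 𝓕, ∃ B ∈ 𝓕, ∃ S : Finset (Fin n), S.Nonempty ∧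
        Disjoint A (S ×ˢ S) ∧ B = A ∪ S ×ˢ S :=
  Pool.Agent.Lib.MP_ecee09_co.square_third δ hδ

end Pool.Agent.Retired.MP_ecee09_co.SquareAboveThird
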