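import Pool.Agent.Lib.MP_ecee09_co.NN

set_option autoImplicit false

namespace Pool.Agent.Retired.MP_ecee09_co.SymmDiffSquare

/-- Parts of exponent one or two. Every dense family of subsets of `X_n` contains `A`, `B` whose
symmetric difference is the union of the sets `S^(r)`, and `A` misses the sets `T^(r)` for a
nonempty `T ⊆ S` with `|T| ≥ F(|S ∖ T|)`. -/
theorem result (s : ℕ) (d : Fin s → ℕ) (hd : ∀ r, d r = 1 ∨ d r = 2) (δ : ℝ) (hδ : 0 < δ)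
    (F : ℕ → ℕ) :
    ∃ n₀ : ℕ, ∀ n, n₀ ≤ n → ∀ 𝓕 : Finset (Finset (Σ r : Fin s, Fin (d r) → Fin n)),
      δ * 2 ^ Fintype.card (Σ r : Fin s, Fin (d r) → Fin n) ≤ 𝓕.card →
      ∃ A ∈ 𝓕, ∃ B ∈ 𝓕, ∃ S T : Finset (Fin n), T.Nonempty ∧ T ⊆ S ∧ F (S \ T).card ≤ T.card ∧
        symmDiff A B = (Finset.univ.filter fun x => ∀ j, x.2 j ∈ S) ∧
        Disjoint A (Finset.univ.filter fun x => ∀ j, x.2 j ∈ T) :=
  SDNN.near_nested s d hd δ hδ F

end Pool.Agent.Retired.MP_ecee09_co.SymmDiffSquare
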